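import Pool.Agent.Y267.RS.Stm

set_option autoImplicit false

/-! Job 1133 (RS-G2) of project RS of helper267. -/

namespace Pool.Agent.Y960.RS

open Set Filter Topology Pool.Agent.Y267.RS

theorem iter_conj {S M : Type} [TopologicalSpace S] [TopologicalSpace M] (h : M ≃ₜ S)
    (f : S → S) (j : ℕ) (x : M) :
    (fun x => h.symm (f (h x)))^[j] x = h.symm (f^[j] (h x)) := by
  induction j with
  | zero => simp
  | succ j ih =>
    rw [Function.iterate_succ_apply', Function.iterate_succ_apply', ih, h.apply_symm_apply]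

theorem isDisp_conj {S M : Type} [TopologicalSpace S] [TopologicalSpace M] (h : M ≃ₜ S)
    (F : ℝ → S → S) (φ : C(M, T1)) (x : M) (n : ℕ) (δ : ℝ) :
    IsDisp (fun t x => h.symm (F t (h x))) φ x n δ ↔
      IsDisp F (φ.comp (h.symm : C(S, M))) (h x) n δ := by
  have key : ∀ (j : ℕ) (s : ℝ),
      φ ((fun t x => h.symm (F t (h x))) s ((fun x => h.symm (F 1 (h x)))^[j] x)) =
        (φ.comp (h.symm : C(S, M))) (F s ((F 1)^[j] (h x))) := by
    intro j s
    rw [iter_conj]
    simp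
  constructor
  · rintro ⟨g, hg, hg', hd⟩
    exact ⟨g, hg, fun j hj s hs => (hg' j hj s hs).trans (key j s), hd⟩
  · rintro ⟨g, hg, hg', hd⟩
    exact ⟨g, hg, fun j hj s hs => (hg' j hj s hs).trans (key j s).symm, hd⟩

/-- transport of functionals -/
def trans {S M : Type} [TopologicalSpace S] [TopologicalSpace M] (h : M ≃ₜ S) :
    (C(M, T1) → ℝ) →ₗ[ℝ] (C(S, T1) → ℝ) where
  toFun w := fun ψ => w (ψ.comp (h : C(M, S)))
  map_add' _ _ := rfl
  map_smul' _ _ := rfl

theorem rotSet_conj {S M : Type} [TopologicalSpace S] [TopologicalSpace M] (h : M ≃ₜ S)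
    (F : ℝ → S → S) :
    rotSet F = trans h '' rotSet (fun t x => h.symm (F t (h x))) := by
  have e1 : ∀ ψ : C(S, T1), (ψ.comp (h : C(M, S))).comp (h.symm : C(S, M)) = ψ := by
    intro ψ
    ext y
    simp
  ext v
  constructor
  · rintro ⟨x, n, δ, hn, hd, hv⟩
    refine ⟨fun φ => v (φ.comp (h.symm : C(S, M))), ⟨fun k => h.symm (x k), n,
      fun φ k => δ (φ.comp (h.symm : C(S, M))) k, hn, ?_, fun φ => hv _⟩, ?_⟩
    · intro φ k
      rw [isDisp_conj, h.apply_symm_apply]
      exact hd _ k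
    · funext ψ
      change v ((ψ.comp (h : C(M, S))).comp (h.symm : C(S, M))) = v ψ
      rw [e1]
  · rintro ⟨w, ⟨x, n, δ, hn, hd, hv⟩, rfl⟩
    refine ⟨fun k => h (x k), n, fun ψ k => δ (ψ.comp (h : C(M, S))) k, hn, ?_, fun ψ => hv _⟩
    intro ψ k
    have := hd (ψ.comp (h : C(M, S))) k
    rw [isDisp_conj, e1] at this
    exact this

theorem g2 : G2Stm := by
  intro S M _ _ h F hF
  obtain ⟨C, hfin, hconv, hC⟩ := hF
  refine ⟨(fun A => trans h '' A) '' C, hfin.image _, ?_, ?_⟩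
  · rintro _ ⟨A, hA, rfl⟩
    exact (hconv A hA).linear_image (trans h)
  · rw [rotSet_conj h F, hC, sUnion_image, sUnion_eq_biUnion, image_iUnion₂]

end Pool.Agent.Y960.RS
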